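import Pool.Agent.T9h78.Sing.Spec

namespace Pool.Agent.T9h78.Sing

open Matrix BigOperators

universe u

section
variable {K : Type u} [Field K] {k : ℕ}

/-- the bordered map on `K × K^k` -/
def gmap (d : K) (r c : Fin k → K) (P : Matrix (Fin k) (Fin k) K) :
    (K × (Fin k → K)) →ₗ[K] (K × (Fin k → K)) where
  toFun p := (d * p.1 + r ⬝ᵥ p.2, p.1 • c + P *ᵥ p.2)
  map_add' p q := by
    ext i
    · simp [mul_add, dotProduct_add]; ring
    · simp [Matrix.mulVec_add, add_mul]; ring
  map_smul' a p := by
    ext i
    · simp [mul_add, dotProduct_smul]; ring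
    · simp [Matrix.mulVec_smul, mul_add]; ring

def consE (K : Type u) [Field K] (k : ℕ) : (K × (Fin k → K)) ≃ₗ[K] (Fin (k+1) → K) where
  toFun p := Fin.cons p.1 p.2
  map_add' p q := by
    funext i
    refine Fin.cases ?_ (fun i => ?_) i <;> simp
  map_smul' a p := by
    funext i
    refine Fin.cases ?_ (fun i => ?_) i <;> simp
  invFun v := (v 0, fun i => v i.succ)
  left_inv p := by simp
  right_inv v := by
    funext i
    refine Fin.cases ?_ (fun i => ?_) i <;> simp

lemma bord_mulVec (d : K) (r c : Fin k → K) (P : Matrix (Fin k) (Fin k) K) (p : K × (Fin k → K)) :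
    (bord d r c P) *ᵥ (consE K k p) = consE K k (gmap d r c P p) := by
  funext i
  refine Fin.cases ?_ (fun i => ?_) i
  · simp [Matrix.mulVec, dotProduct, Fin.sum_univ_succ, consE, gmap, bord]
  · simp [Matrix.mulVec, dotProduct, Fin.sum_univ_succ, consE, gmap, bord]
    ring

lemma rank_bord (d : K) (r c : Fin k → K) (P : Matrix (Fin k) (Fin k) K) :
    (bord d r c P).rank + Module.finrank K (LinearMap.ker (gmap d r c P)) = k + 1 := by
  have h1 : (bord d r c P).rank = Module.finrank K (LinearMap.range (gmap d r c P)) := by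
    unfold Matrix.rank
    have h2 : (bord d r c P).mulVecLin =
        (consE K k).toLinearMap ∘ₗ (gmap d r c P) ∘ₗ (consE K k).symm.toLinearMap := by
      apply LinearMap.ext
      intro v
      obtain ⟨p, rfl⟩ := (consE K k).surjective v
      rw [Matrix.mulVecLin_apply, bord_mulVec]
      simp
    rw [h2, LinearMap.range_comp, LinearMap.range_comp, LinearEquiv.range, Submodule.map_top]
    exact LinearEquiv.finrank_map_eq (consE K k) _
  rw [h1, LinearMap.finrank_range_add_finrank_ker]
  simp [Module.finrank_prod, add_comm]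

lemma rank_P (P : Matrix (Fin k) (Fin k) K) :
    P.rank + Module.finrank K (LinearMap.ker P.mulVecLin) = k := by
  unfold Matrix.rank
  rw [LinearMap.finrank_range_add_finrank_ker]
  simp

end


section
variable {K : Type u} [Field K] {k : ℕ}

lemma mem_ker_gmap (d : K) (r c : Fin k → K) (P : Matrix (Fin k) (Fin k) K) (p : K × (Fin k → K)) :
    p ∈ LinearMap.ker (gmap d r c P) ↔ (d * p.1 + r ⬝ᵥ p.2 = 0 ∧ p.1 • c + P *ᵥ p.2 = 0) := by
  rw [LinearMap.mem_ker]
  change ((_, _) : K × (Fin k → K)) = 0 ↔ _
  rw [Prod.mk_eq_zero]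

lemma row_of_ker (P : Matrix (Fin k) (Fin k) K) (r : Fin k → K)
    (h : ∀ w, P *ᵥ w = 0 → r ⬝ᵥ w = 0) : ∃ μ, μ ᵥ* P = r := by
  classical
  have h1 : (dotProductEquiv K (Fin k) r) ∈ (LinearMap.ker P.mulVecLin).dualAnnihilator := by
    rw [Submodule.mem_dualAnnihilator]
    intro w hw
    rw [LinearMap.mem_ker, Matrix.mulVecLin_apply] at hw
    simpa using h w hw
  rw [← LinearMap.range_dualMap_eq_dualAnnihilator_ker] at h1
  obtain ⟨ψ, hψ⟩ := h1
  refine ⟨(dotProductEquiv K (Fin k)).symm ψ, ?_⟩
  apply (dotProductEquiv K (Fin k)).injective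
  rw [← hψ]
  apply LinearMap.ext
  intro w
  rw [dotProductEquiv_apply_apply, LinearMap.dualMap_apply, Matrix.mulVecLin_apply,
    ← Matrix.dotProduct_mulVec]
  have h3 := congrArg (fun g => g (P *ᵥ w)) ((dotProductEquiv K (Fin k)).apply_symm_apply ψ)
  simp only [dotProductEquiv_apply_apply] at h3
  exact h3

end

theorem stBord : StBord.{u} := by
  intro K _ k d r c P
  have h1 := rank_bord d r c P
  have h2 := rank_P P
  refine ⟨?_, ?_, ?_⟩
  · intro hc hr
    -- functional `r` restricted to the kernel of `P`
    let f : LinearMap.ker P.mulVecLin →ₗ[K] K :=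
      ((dotProductBilin K K r : (Fin k → K) →ₗ[K] K)).comp (LinearMap.ker P.mulVecLin).subtype
    have hf : ∀ w, f w = r ⬝ᵥ (w : Fin k → K) := fun w => rfl
    have hf0 : LinearMap.range f = ⊤ := by
      rw [LinearMap.range_eq_top]
      have : ∃ w, f w ≠ 0 := by
        by_contra hcon
        push Not at hcon
        exact hr (row_of_ker P r (fun w hw => by
          have := hcon ⟨w, by rw [LinearMap.mem_ker, Matrix.mulVecLin_apply]; exact hw⟩
          rw [hf] at this
          exact this))
      obtain ⟨w, hw⟩ := this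
      intro y
      exact ⟨(y / f w) • w, by rw [map_smul, smul_eq_mul, div_mul_cancel₀ _ hw]⟩
    have h3 := LinearMap.finrank_range_add_finrank_ker f
    rw [hf0, finrank_top, Module.finrank_self] at h3
    let g : LinearMap.ker f →ₗ[K] LinearMap.ker (gmap d r c P) :=
      LinearMap.codRestrict _ ((LinearMap.inr K K (Fin k → K)).comp
        ((LinearMap.ker P.mulVecLin).subtype.comp (LinearMap.ker f).subtype)) (by
        rintro ⟨⟨w, hw⟩, hw2⟩
        rw [mem_ker_gmap]
        rw [LinearMap.mem_ker, Matrix.mulVecLin_apply] at hw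
        rw [LinearMap.mem_ker, hf] at hw2
        refine ⟨?_, ?_⟩
        · simpa using hw2
        · simpa using hw)
    have hg : Function.Bijective g := by
      constructor
      · intro a b hab
        have := congrArg (fun z => ((z : LinearMap.ker (gmap d r c P)) : K × (Fin k → K)).2) hab
        exact Subtype.ext (Subtype.ext this)
      · rintro ⟨⟨a, v⟩, hv⟩
        obtain ⟨hv1, hv2⟩ := (mem_ker_gmap d r c P _).1 hv
        simp only at hv1 hv2
        have ha : a = 0 := by
          by_contra ha
          apply hc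
          refine ⟨(-a⁻¹) • v, ?_⟩
          rw [Matrix.mulVec_smul]
          have : P *ᵥ v = - (a • c) := by
            rw [eq_neg_iff_add_eq_zero, add_comm]; exact hv2
          rw [this, smul_neg, neg_smul, neg_neg, smul_smul, inv_mul_cancel₀ ha, one_smul]
        subst ha
        simp only [mul_zero, zero_add, zero_smul] at hv1 hv2
        refine ⟨⟨⟨v, by rw [LinearMap.mem_ker, Matrix.mulVecLin_apply]; exact hv2⟩, by
          rw [LinearMap.mem_ker, hf]; exact hv1⟩, ?_⟩
        rfl
    have h4 := (LinearEquiv.ofBijective g hg).finrank_eq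
    omega
  · intro μ μ' hμ hμ' hd
    let g : (K × LinearMap.ker P.mulVecLin) →ₗ[K] LinearMap.ker (gmap d r c P) :=
      LinearMap.codRestrict _ (LinearMap.prod (LinearMap.fst K K _)
        (((LinearMap.ker P.mulVecLin).subtype.comp (LinearMap.snd K K _)) -
          (LinearMap.toSpanSingleton K (Fin k → K) μ).comp (LinearMap.fst K K _))) (by
        rintro ⟨a, ⟨w, hw⟩⟩
        rw [mem_ker_gmap]
        rw [LinearMap.mem_ker, Matrix.mulVecLin_apply] at hw
        have hrw : r ⬝ᵥ w = 0 := by
          rw [← hμ', ← Matrix.dotProduct_mulVec, hw, dotProduct_zero]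
        refine ⟨?_, ?_⟩
        · change d * a + r ⬝ᵥ (w - a • μ) = 0
          rw [dotProduct_sub, hrw, dotProduct_smul, smul_eq_mul, hd]
          ring
        · change a • c + P *ᵥ (w - a • μ) = 0
          rw [Matrix.mulVec_sub, hw, Matrix.mulVec_smul, hμ]
          simp)
    have hgv : ∀ a w, ((g (a, w) : LinearMap.ker (gmap d r c P)) : K × (Fin k → K)) = (a, (w : Fin k → K) - a • μ) :=
      fun a w => rfl
    have hg : Function.Bijective g := by
      constructor
      · rintro ⟨a, w⟩ ⟨a', w'⟩ hab
        have h5 := congrArg (fun z => ((z : LinearMap.ker (gmap d r c P)) : K × (Fin k → K))) hab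
        simp only [hgv, Prod.mk.injEq] at h5
        obtain ⟨rfl, h6⟩ := h5
        have h7 : (w : Fin k → K) = w' := sub_left_injective h6
        rw [Subtype.ext h7]
      · rintro ⟨⟨a, v⟩, hv⟩
        obtain ⟨hv1, hv2⟩ := (mem_ker_gmap d r c P _).1 hv
        simp only at hv1 hv2
        refine ⟨(a, ⟨v + a • μ, ?_⟩), ?_⟩
        · rw [LinearMap.mem_ker, Matrix.mulVecLin_apply, Matrix.mulVec_add, Matrix.mulVec_smul, hμ, add_comm]
          exact hv2
        · apply Subtype.ext
          rw [hgv]
          simp
    have h4 := (LinearEquiv.ofBijective g hg).finrank_eq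
    rw [Module.finrank_prod, Module.finrank_self] at h4
    omega
  · intro μ μ' hμ hμ' hd
    let g : LinearMap.ker P.mulVecLin →ₗ[K] LinearMap.ker (gmap d r c P) :=
      LinearMap.codRestrict _ ((LinearMap.inr K K (Fin k → K)).comp (LinearMap.ker P.mulVecLin).subtype) (by
        rintro ⟨w, hw⟩
        rw [mem_ker_gmap]
        rw [LinearMap.mem_ker, Matrix.mulVecLin_apply] at hw
        have hrw : r ⬝ᵥ w = 0 := by
          rw [← hμ', ← Matrix.dotProduct_mulVec, hw, dotProduct_zero]
        refine ⟨?_, ?_⟩
        · simpa using hrw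
        · simpa using hw)
    have hg : Function.Bijective g := by
      constructor
      · intro a b hab
        have := congrArg (fun z => ((z : LinearMap.ker (gmap d r c P)) : K × (Fin k → K)).2) hab
        exact Subtype.ext this
      · rintro ⟨⟨a, v⟩, hv⟩
        obtain ⟨hv1, hv2⟩ := (mem_ker_gmap d r c P _).1 hv
        simp only at hv1 hv2
        have hw : P *ᵥ (v + a • μ) = 0 := by
          rw [Matrix.mulVec_add, Matrix.mulVec_smul, hμ, add_comm]; exact hv2
        have hrw : r ⬝ᵥ (v + a • μ) = 0 := by
          rw [← hμ', ← Matrix.dotProduct_mulVec, hw, dotProduct_zero]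
        have ha : a = 0 := by
          rw [dotProduct_add, dotProduct_smul, smul_eq_mul] at hrw
          have h8 : a * (d - r ⬝ᵥ μ) = 0 := by linear_combination hv1 - hrw
          rcases mul_eq_zero.1 h8 with h | h
          · exact h
          · exact absurd (sub_eq_zero.1 h) hd
        subst ha
        simp only [zero_smul, zero_add] at hv2
        exact ⟨⟨v, by rw [LinearMap.mem_ker, Matrix.mulVecLin_apply]; exact hv2⟩, rfl⟩
    have h4 := (LinearEquiv.ofBijective g hg).finrank_eq
    omega

end Pool.Agent.T9h78.Sing
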