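import Pool.Agent.T9h78.Sing.Spec

namespace Pool.Agent.T9h78.Sing

open Matrix BigOperators

universe u

lemma trace_frob (F L : Type u) [Field F] [Fintype F] [Field L] [Fintype L] [Algebra F L] (n : ℕ) (z : L) :
    Algebra.trace F L (z ^ (Fintype.card F ^ n)) = Algebra.trace F L z := by
  have : FiniteDimensional F L := Module.Finite.of_finite
  have h := FiniteField.coe_frobeniusAlgEquivOfAlgebraic_iterate F L n
  induction n with
  | zero => simp
  | succ n ih =>
    have ih' := ih (FiniteField.coe_frobeniusAlgEquivOfAlgebraic_iterate F L n)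
    rw [pow_succ, pow_mul]
    rw [show (z ^ Fintype.card F ^ n) ^ Fintype.card F =
      FiniteField.frobeniusAlgEquivOfAlgebraic F L (z ^ Fintype.card F ^ n) by simp]
    rw [Algebra.trace_eq_of_algEquiv, ih']

/-- the count of good `i`-tuples in the model, `i < 2n` -/
theorem count_model (hW : StW.{u}) (hR : StRank.{u}) (hG : StGauss.{u}) (hC : StCount.{u})
    (F L : Type u) [Field F] [Fintype F] [Field L] [Fintype L] [Algebra F L] (n : ℕ)
    (hL : Fintype.card L = (Fintype.card F) ^ (2 * n)) (α s : L) (hs : (minpoly F s).natDegree = 2 * n)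
    (hα : α ≠ 0) (hαs : α ^ (Fintype.card F ^ n) = s * α) (i : ℕ) (hi : i < 2 * n) :
    (Nat.card {w : Fin i → L // Good (fun x y : L => Algebra.trace F L (α * x * y ^ (Fintype.card F ^ n))) w} : ℂ) *
      (Fintype.card F : ℂ) ^ (i * (i + 1) / 2) =
    ((Fintype.card F : ℂ) ^ (2 * n)) ^ i *
      (((Fintype.card F : ℂ) - 1) * (1 - (-1 / (Fintype.card F : ℂ) ^ n))) ^ i := by
  classical
  have : FiniteDimensional F L := Module.Finite.of_finite
  obtain ⟨ψ, hψ⟩ := (AddChar.exists_apply_ne_zero (α := F) (a := 1)).2 one_ne_zero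
  have hψ1 : ψ ≠ 1 := by
    rintro rfl
    simp at hψ
  set Q := Fintype.card F ^ n with hQ
  set X : L → L → F := fun x y => Algebra.trace F L (α * x * y ^ Q) with hX
  rw [hC F L X ψ hψ1 i]
  set φ : AddChar L ℂ := ψ.compAddMonoidHom (Algebra.trace F L).toAddMonoidHom with hφ
  have hφa : ∀ z, φ z = ψ (Algebra.trace F L z) := fun z => rfl
  have hφ1 : φ ≠ 1 := by
    intro h
    obtain ⟨z, hz⟩ := Algebra.trace_surjective F L 1
    apply hψ
    rw [← hz, ← hφa, h]; simp
  have hφQ : ∀ z, φ (z ^ Q) = φ z := by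
    intro z
    rw [hφa, hφa, trace_frob]
  have key : ∀ S : Matrix (Fin i) (Fin i) F,
      ∑ w : Fin i → L, ψ (∑ a, ∑ b, S a b * X (w a) (w b)) =
      ((Fintype.card F : ℂ) ^ (2 * n)) ^ i * (-1 / (Fintype.card F : ℂ) ^ n) ^ grk S := by
    intro S
    have h1 := hG F L n hL φ hφ1 hφQ i (Matrix.of (fun a b => α * algebraMap F L (S a b)))
    have h2 : ∀ w : Fin i → L, φ (∑ a, ∑ b, Matrix.of (fun a b => α * algebraMap F L (S a b)) a b * w a * (w b) ^ Q) =
        ψ (∑ a, ∑ b, S a b * X (w a) (w b)) := by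
      intro w
      rw [hφa, map_sum]
      congr 1
      refine Finset.sum_congr rfl fun a _ => ?_
      rw [map_sum]
      refine Finset.sum_congr rfl fun b _ => ?_
      simp only [Matrix.of_apply, hX]
      rw [← smul_eq_mul (S a b), ← map_smul]
      congr 1
      rw [Algebra.smul_def]
      ring
    rw [Finset.sum_congr rfl (fun w _ => h2 w)] at h1
    rw [h1]
    congr 2
    have h3 : (Matrix.of (fun a b => α * algebraMap F L (S a b)) +
        Matrix.of (fun a b => (Matrix.of (fun a b => α * algebraMap F L (S a b)) b a) ^ Q)) = α • pen s S := by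
      ext a b
      simp only [Matrix.add_apply, Matrix.of_apply, Matrix.smul_apply, pen, smul_eq_mul]
      rw [mul_pow, ← map_pow, hQ, FiniteField.pow_card_pow, ← hQ, hαs]
      ring
    rw [h3, Matrix.rank_smul_of_mem_nonZeroDivisors _ (mem_nonZeroDivisors_of_ne_zero hα)]
    exact hR F L s i (Algebra.IsIntegral.isIntegral s) (by omega) S
  have h4 : ∀ S : Matrix (Fin i) (Fin i) F, (if UT S then
      wt S * ∑ w : Fin i → L, ψ (∑ a, ∑ b, S a b * X (w a) (w b)) else 0) =
      ((Fintype.card F : ℂ) ^ (2 * n)) ^ i *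
        (if UT S then wt S * (-1 / (Fintype.card F : ℂ) ^ n) ^ grk S else 0) := by
    intro S
    split_ifs
    · rw [key]; ring
    · simp
  rw [Finset.sum_congr rfl (fun S _ => h4 S), ← Finset.mul_sum, hW F i]

theorem count_V (hW : StW.{u}) (hR : StRank.{u}) (hG : StGauss.{u}) (hC : StCount.{u}) (hE : StLast.{u})
    (hM : StModel.{u})
    (F V : Type u) [Field F] [Fintype F] [AddCommGroup V] [Module F V]
    [FiniteDimensional F V] (n : ℕ) (X : V →ₗ[F] V →ₗ[F] F) (c : V ≃ₗ[F] V) (κ : F)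
    (hn : 1 ≤ n) (hV : Module.finrank F V = 2 * n) (hc : IsIrred c) (ho : orderOf c = (Fintype.card F) ^ n + 1)
    (hX : ∀ x, (∀ y, X x y = 0) → x = 0) (hXc : ∀ x y, X (c x) (c y) = X x y) (hκ : κ = 1 ∨ κ = -1)
    (hXκ : ∀ x y, X y x = κ * X (c x) y) :
    Nat.card {w : Fin (2 * n) → V // Good (fun x y => X x y) w} =
      ((Fintype.card F) ^ n + 1) ^ (2 * n - 1) * (Fintype.card F - 1) ^ (2 * n) := by
  classical
  obtain ⟨L, _, _, _, e, α, s, hL, hs, hα, hαs, hXe⟩ := hM F V n X c κ hn hV hc ho hX hXc hκ hXκ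
  obtain ⟨m, hm⟩ : ∃ m, 2 * n = m + 1 := ⟨2 * n - 1, by omega⟩
  have h1 := hE F V X hX m (by omega)
  have h2 := count_model hW hR hG hC F L n hL α s hs hα hαs m (by omega)
  have h3 : Nat.card {w : Fin m → V // Good (fun x y => X x y) w} =
      Nat.card {w : Fin m → L // Good (fun x y : L => Algebra.trace F L (α * x * y ^ (Fintype.card F ^ n))) w} := by
    refine Nat.card_congr (Equiv.subtypeEquiv (Equiv.arrowCongr (Equiv.refl _) e.toEquiv) ?_)
    intro w
    simp only [Good, hXe, Equiv.arrowCongr_apply, Function.comp, Equiv.refl_symm, Equiv.coe_refl, id]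
    rfl
  rw [← h3] at h2
  have hq : (Fintype.card F : ℂ) ≠ 0 := by
    exact_mod_cast Fintype.card_ne_zero
  have hq1 : 1 ≤ Fintype.card F := Fintype.card_pos
  have h4 : Nat.card {w : Fin m → V // Good (fun x y => X x y) w} =
      ((Fintype.card F - 1) * ((Fintype.card F) ^ n + 1)) ^ m := by
    have h5 : m * (m + 1) / 2 = n * m := by
      rw [← hm, show m * (2 * n) = 2 * (n * m) by ring]
      omega
    rw [h5] at h2
    have h6 : ((Fintype.card F : ℂ) ^ (2 * n)) ^ m *
      (((Fintype.card F : ℂ) - 1) * (1 - (-1 / (Fintype.card F : ℂ) ^ n))) ^ m =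
      (((Fintype.card F : ℂ) - 1) * ((Fintype.card F : ℂ) ^ n + 1)) ^ m * (Fintype.card F : ℂ) ^ (n * m) := by
      rw [pow_mul _ n m, ← mul_pow, ← mul_pow]
      congr 1
      field_simp
      ring
    rw [h6] at h2
    have h7 := mul_right_cancel₀ (pow_ne_zero _ hq) h2
    have h8 : ((Nat.card {w : Fin m → V // Good (fun x y => X x y) w} : ℕ) : ℂ) =
        ((((Fintype.card F - 1) * ((Fintype.card F) ^ n + 1)) ^ m : ℕ) : ℂ) := by
      rw [h7]
      push_cast [Nat.cast_sub hq1]
      ring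
    exact_mod_cast h8
  rw [h4] at h1
  have h9 : 2 * n - 1 = m := by omega
  rw [h9]
  have h10 : Nat.card {w : Fin (2 * n) → V // Good (fun x y => X x y) w} =
      Nat.card {w : Fin (m + 1) → V // Good (fun x y => X x y) w} := by
    rw [hm]
  rw [h10, h1, hm, mul_pow, pow_succ]
  ring

end Pool.Agent.T9h78.Sing
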