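import Pool.Agent.T9h78.Sing.Spe

namespace Pool.Agent.T9h78.Sing

open Matrix BigOperators

universe u

section
variable {F : Type u} [Field F] {k : ℕ}

/-- `S + c e_b lᵀ` -/
def shiftM (b : Fin k) (l : Fin k → F) (c : F) (S : Matrix (Fin k) (Fin k) F) : Matrix (Fin k) (Fin k) F :=
  fun i j => S i j + if i = b then c * l j else 0

lemma UT_shiftM {b : Fin k} {l : Fin k → F} (hb : ∀ j, j < b → l j = 0) (c : F) {S : Matrix (Fin k) (Fin k) F}
    (h : UT S) : UT (shiftM b l c S) := by
  intro i j hij
  unfold shiftM
  rw [h i j hij]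
  split_ifs with h1
  · subst h1; rw [hb j hij]; simp
  · simp

lemma shiftM_shiftM (b : Fin k) (l : Fin k → F) (c d : F) (S : Matrix (Fin k) (Fin k) F) :
    shiftM b l c (shiftM b l d S) = shiftM b l (c + d) S := by
  ext i j
  unfold shiftM
  split_ifs <;> ring

lemma shiftM_zero (b : Fin k) (l : Fin k → F) (S : Matrix (Fin k) (Fin k) F) : shiftM b l 0 S = S := by
  ext i j
  unfold shiftM
  simp

lemma Spe_shiftM (b : Fin k) {l : Fin k → F} (c : F) {S : Matrix (Fin k) (Fin k) F}
    (h : Spe S l) : Spe (shiftM b l c S) l := by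
  obtain ⟨μ, h1, h2⟩ := h
  set u : PowerSeries F := 1 + PowerSeries.C c * PowerSeries.X * μ b with hu
  have hun : IsUnit u := by
    rw [PowerSeries.isUnit_iff_constantCoeff]
    simp [hu]
  obtain ⟨v, hv⟩ := hun.exists_right_inv
  have h3 : pen (PowerSeries.X : PowerSeries F) (shiftM b l c S) *ᵥ μ = u • (fun i => algebraMap F _ (l i)) := by
    funext i
    have h4 := congrFun h1 i
    simp only [Matrix.mulVec, dotProduct] at h4 h2 ⊢
    have h5 : ∀ j, pen (PowerSeries.X : PowerSeries F) (shiftM b l c S) i j * μ j =
        pen (PowerSeries.X : PowerSeries F) S i j * μ j +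
        (if i = b then PowerSeries.C c else 0) * (algebraMap F (PowerSeries F) (l j) * μ j) +
        (if j = b then PowerSeries.X * PowerSeries.C c * algebraMap F (PowerSeries F) (l i) * μ j else 0) := by
      intro j
      simp only [pen, shiftM, PowerSeries.algebraMap_apply, Algebra.algebraMap_self_apply]
      split_ifs <;> simp only [map_add, map_mul, map_zero] <;> ring
    rw [Finset.sum_congr rfl (fun j _ => h5 j), Finset.sum_add_distrib, Finset.sum_add_distrib, h4,
      ← Finset.mul_sum, h2, Finset.sum_ite_eq' Finset.univ b]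
    simp only [Finset.mem_univ, if_true, Pi.smul_apply, smul_eq_mul, hu]
    ring
  refine ⟨v • μ, ?_, ?_⟩
  · rw [Matrix.mulVec_smul, h3, smul_smul, mul_comm v u, hv, one_smul]
  · rw [dotProduct_smul, h2, smul_zero]

lemma grk_shiftM (hB : StBord.{u}) (hS : StSym.{u}) (b : Fin k) {l : Fin k → F} (c : F)
    {S : Matrix (Fin k) (Fin k) F} (h : Spe S l) : grk (shiftM b l c S) = grk S := by
  have key : ∀ S' : Matrix (Fin k) (Fin k) F, Spe S' l → grk (bord 0 l 0 S') = grk S' := by
    intro S' h'
    obtain ⟨μ, h1, -⟩ := h'.embed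
    exact (grk_bord_mem hB hS S' l 0 ⟨μ, h1⟩).1 ((stSpe hS F k S' l h').1)
  rw [← key S h, ← key _ (Spe_shiftM b c h)]
  unfold grk
  have h1 : pen (tt F) (bord 0 l 0 (shiftM b l c S)) =
      Matrix.transvection b.succ 0 (algebraMap F _ c) * pen (tt F) (bord 0 l 0 S) *
        Matrix.transvection 0 b.succ (algebraMap F _ c) := by
    refine Matrix.ext fun i j => ?_
    rw [pen_bord, pen_bord]
    refine Fin.cases ?_ (fun j => ?_) j
    · rw [Matrix.mul_transvection_apply_of_ne _ _ _ _ (Fin.succ_ne_zero b).symm]
      refine Fin.cases ?_ (fun i => ?_) i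
      · rw [Matrix.transvection_mul_apply_of_ne _ _ _ _ (Fin.succ_ne_zero b).symm]
        simp
      · by_cases hi : i = b
        · subst hi
          rw [Matrix.transvection_mul_apply_same]
          simp
        · rw [Matrix.transvection_mul_apply_of_ne _ _ _ _ (fun h => hi (Fin.succ_injective _ h))]
          simp
    · by_cases hj : j = b
      · subst hj
        rw [Matrix.mul_transvection_apply_same]
        refine Fin.cases ?_ (fun i => ?_) i
        · rw [Matrix.transvection_mul_apply_of_ne _ _ _ _ (Fin.succ_ne_zero j).symm,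
            Matrix.transvection_mul_apply_of_ne _ _ _ _ (Fin.succ_ne_zero j).symm]
          simp
        · by_cases hi : i = j
          · subst hi
            rw [Matrix.transvection_mul_apply_same, Matrix.transvection_mul_apply_same]
            simp [pen, shiftM]
            ring
          · rw [Matrix.transvection_mul_apply_of_ne _ _ _ _ (fun h => hi (Fin.succ_injective _ h)),
              Matrix.transvection_mul_apply_of_ne _ _ _ _ (fun h => hi (Fin.succ_injective _ h))]
            simp [pen, shiftM, hi]
            ring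
      · rw [Matrix.mul_transvection_apply_of_ne _ _ _ _ (fun h => hj (Fin.succ_injective _ h))]
        refine Fin.cases ?_ (fun i => ?_) i
        · rw [Matrix.transvection_mul_apply_of_ne _ _ _ _ (Fin.succ_ne_zero b).symm]
          simp
        · by_cases hi : i = b
          · subst hi
            rw [Matrix.transvection_mul_apply_same]
            simp [pen, shiftM, hj]
            ring
          · rw [Matrix.transvection_mul_apply_of_ne _ _ _ _ (fun h => hi (Fin.succ_injective _ h))]
            simp [pen, shiftM, hi, hj]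
  rw [h1, Matrix.rank_mul_eq_left_of_isUnit_det, Matrix.rank_mul_eq_right_of_isUnit_det]
  · rw [Matrix.det_transvection_of_ne _ _ (Fin.succ_ne_zero b)]; exact isUnit_one
  · rw [Matrix.det_transvection_of_ne _ _ (Fin.succ_ne_zero b).symm]; exact isUnit_one

end

open scoped Classical in
theorem stShift (hB : StBord.{u}) (hS : StSym.{u}) : StShift.{u} := by
  intro F _ _ k x l hl
  -- the least index
  have hex : ∃ b : Fin k, l b ≠ 0 ∧ ∀ j, j < b → l j = 0 := by
    have hne : (Finset.univ.filter (fun j : Fin k => l j ≠ 0)).Nonempty := by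
      by_contra h
      rw [Finset.not_nonempty_iff_eq_empty] at h
      apply hl
      funext j
      by_contra hj
      have hj' : l j ≠ 0 := hj
      have : j ∈ Finset.univ.filter (fun j : Fin k => l j ≠ 0) := by simp [hj']
      rw [h] at this
      simp at this
    refine ⟨(Finset.univ.filter (fun j : Fin k => l j ≠ 0)).min' hne, ?_, ?_⟩
    · have := Finset.min'_mem _ hne
      simpa using this
    · intro j hj
      by_contra hj0
      have h1 : j ∈ Finset.univ.filter (fun j : Fin k => l j ≠ 0) := by simp [hj0]
      have h2 := Finset.min'_le _ j h1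
      exact absurd hj (not_lt.2 h2)
  obtain ⟨b, hb0, hb⟩ := hex
  let e : F → Matrix (Fin k) (Fin k) F ≃ Matrix (Fin k) (Fin k) F := fun c =>
    { toFun := shiftM b l c
      invFun := shiftM b l (-c)
      left_inv := fun S => by rw [shiftM_shiftM, neg_add_cancel, shiftM_zero]
      right_inv := fun S => by rw [shiftM_shiftM, add_neg_cancel, shiftM_zero] }
  have hiff : ∀ (c : F) (S : Matrix (Fin k) (Fin k) F), (UT (e c S) ∧ Spe (e c S) l) ↔ (UT S ∧ Spe S l) := by
    intro c S
    constructor
    · rintro ⟨h1, h2⟩
      have h3 := UT_shiftM hb (-c) h1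
      have h4 := Spe_shiftM b (-c) h2
      have h5 : shiftM b l (-c) (e c S) = S := (e c).left_inv S
      rw [h5] at h3 h4
      exact ⟨h3, h4⟩
    · rintro ⟨h1, h2⟩
      exact ⟨UT_shiftM hb c h1, Spe_shiftM b c h2⟩
  set T := ∑ S : Matrix (Fin k) (Fin k) F, if UT S ∧ Spe S l then wt S * x ^ grk S else 0 with hT
  have h1 : ∀ c : F, T = ∑ S : Matrix (Fin k) (Fin k) F,
      if UT S ∧ Spe S l then wt (shiftM b l c S) * x ^ grk S else 0 := by
    intro c
    rw [hT, ← (e c).sum_comp]
    refine Finset.sum_congr rfl fun S _ => ?_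
    by_cases h : UT S ∧ Spe S l
    · rw [if_pos h, if_pos ((hiff c S).2 h)]
      have : grk (e c S) = grk S := grk_shiftM hB hS b c h.2
      rw [this]
      rfl
    · rw [if_neg h, if_neg (fun h' => h ((hiff c S).1 h'))]
  have h2 : (Fintype.card F : ℂ) * T = ∑ c : F, ∑ S : Matrix (Fin k) (Fin k) F,
      if UT S ∧ Spe S l then wt (shiftM b l c S) * x ^ grk S else 0 := by
    rw [← Finset.sum_congr rfl (fun c _ => h1 c)]
    simp
  rw [Finset.sum_comm] at h2
  have h3 : ∀ S : Matrix (Fin k) (Fin k) F,
      ∑ c : F, (if UT S ∧ Spe S l then wt (shiftM b l c S) * x ^ grk S else 0) = 0 := by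
    intro S
    split_ifs
    · rw [← Finset.sum_mul]
      have h4 : ∀ c : F, wt (shiftM b l c S) = fw (S b b + c * l b) * ∏ a ∈ Finset.univ.erase b, fw (S a a) := by
        intro c
        unfold wt
        rw [← Finset.mul_prod_erase _ _ (Finset.mem_univ b)]
        congr 1
        · simp [shiftM]
        · refine Finset.prod_congr rfl fun a ha => ?_
          simp [shiftM, Finset.ne_of_mem_erase ha]
      simp_rw [h4]
      rw [← Finset.sum_mul]
      have h5 : ∑ c : F, fw (S b b + c * l b) = 0 := by
        rw [← sum_fw (F := F)]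
        let g : F ≃ F :=
          { toFun := fun c => S b b + c * l b
            invFun := fun y => (y - S b b) / l b
            left_inv := fun c => by simp [hb0]
            right_inv := fun y => by simp [hb0] }
        exact g.sum_comp (fun y => fw y)
      rw [h5]; simp
    · simp
  rw [Finset.sum_congr rfl (fun S _ => h3 S), Finset.sum_const_zero] at h2
  have hq : (Fintype.card F : ℂ) ≠ 0 := by exact_mod_cast Fintype.card_ne_zero
  exact (mul_eq_zero.1 h2).resolve_left hq

end Pool.Agent.T9h78.Sing
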