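import Pool.Agent.T9h78.Sing.Spe

namespace Pool.Agent.T9h78.Sing

open Matrix BigOperators Polynomial

universe u

section
variable {F : Type u} [Field F]

/-- polynomials into Laurent series -/
noncomputable def psi (F : Type u) [Field F] : F[X] →+* LaurentSeries F :=
  (emb F).comp Polynomial.coeToPowerSeries.ringHom

lemma psi_inj : Function.Injective (psi F) :=
  emb_inj.comp (Polynomial.coe_injective F)

lemma psi_X : psi F X = tt F := by
  simp [psi, emb_X]

lemma psi_C (a : F) : psi F (C a) = algebraMap F (LaurentSeries F) a := by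
  simp [psi, ← emb_alg, PowerSeries.algebraMap_apply]

/-- a constant vector in the column space over Laurent series: polynomial solution -/
lemma exists_poly {k : ℕ} (S : Matrix (Fin k) (Fin k) F) (l : Fin k → F)
    (h : ∃ μ : Fin k → LaurentSeries F, pen (tt F) S *ᵥ μ = fun i => algebraMap F _ (l i)) :
    ∃ (m : Fin k → F[X]) (d : F[X]), d ≠ 0 ∧ ∀ i, ∑ j, (C (S i j) + X * C (S j i)) * m j = C (l i) * d := by
  obtain ⟨μ, hμ⟩ := h
  let K0 := FractionRing F[X]
  let a : K0 →+* LaurentSeries F := IsFractionRing.lift (A := F[X]) (K := K0) (g := psi F) psi_inj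
  have ha : ∀ p : F[X], a (algebraMap F[X] K0 p) = psi F p := fun p => IsFractionRing.lift_algebraMap _ p
  letI : Algebra K0 (LaurentSeries F) := a.toAlgebra
  have hsm : ∀ (x : K0) (y : LaurentSeries F), x • y = a x * y := fun x y => rfl
  obtain ⟨r, hr⟩ := LinearMap.exists_leftInverse_of_injective (Algebra.linearMap K0 (LaurentSeries F)) (by
    rw [LinearMap.ker_eq_bot]
    exact a.injective)
  have hr1 : ∀ x : K0, r (a x) = x := by
    intro x
    have := congrArg (fun g => g x) hr
    exact this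
  -- solution over `K0`
  have h1 : ∀ i, ∑ j, algebraMap F[X] K0 (C (S i j) + X * C (S j i)) * r (μ j) = algebraMap F[X] K0 (C (l i)) := by
    intro i
    have h2 := congrFun hμ i
    simp only [Matrix.mulVec, dotProduct, pen] at h2
    have h3 := congrArg r h2
    rw [map_sum, ← psi_C, ← ha, hr1] at h3
    rw [← h3]
    refine Finset.sum_congr rfl fun j _ => ?_
    rw [← smul_eq_mul, ← map_smul, hsm, ha]
    simp only [map_add, map_mul, psi_X, psi_C]
  obtain ⟨b, hb⟩ := IsLocalization.exist_integer_multiples (nonZeroDivisors F[X]) (S := K0) Finset.univ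
    (fun j => r (μ j))
  choose m hm using fun j => hb j (Finset.mem_univ j)
  refine ⟨m, b, nonZeroDivisors.ne_zero b.2, fun i => ?_⟩
  apply IsFractionRing.injective F[X] K0
  rw [map_sum]
  have h4 := h1 i
  rw [map_mul, ← h4, Finset.sum_mul]
  refine Finset.sum_congr rfl fun j _ => ?_
  rw [map_mul, hm j, Algebra.smul_def]
  ring

lemma exists_series {k : ℕ} (S : Matrix (Fin k) (Fin k) F) (l : Fin k → F)
    (m : Fin k → F[X]) (d : F[X]) (hd : d ≠ 0)
    (h : ∀ i, ∑ j, (C (S i j) + X * C (S j i)) * m j = C (l i) * d) :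
    ∃ μ : Fin k → LaurentSeries F, pen (tt F) S *ᵥ μ = fun i => algebraMap F _ (l i) := by
  have hd' : psi F d ≠ 0 := fun h0 => hd (psi_inj (by rw [h0, map_zero]))
  refine ⟨fun j => psi F (m j) * (psi F d)⁻¹, ?_⟩
  funext i
  have h1 := congrArg (psi F) (h i)
  simp only [map_sum, map_mul, map_add, psi_C, psi_X] at h1
  simp only [Matrix.mulVec, dotProduct, pen]
  simp_rw [← mul_assoc]
  rw [← Finset.sum_mul, h1, mul_assoc, mul_inv_cancel₀ hd', mul_one]

lemma poly_reflect {k : ℕ} (S : Matrix (Fin k) (Fin k) F) (l : Fin k → F)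
    (m : Fin k → F[X]) (d : F[X]) (hd : d ≠ 0)
    (h : ∀ i, ∑ j, (C (S i j) + X * C (S j i)) * m j = C (l i) * d) :
    ∃ (m' : Fin k → F[X]) (d' : F[X]), d' ≠ 0 ∧ ∀ i, ∑ j, (C (S j i) + X * C (S i j)) * m' j = C (l i) * d' := by
  obtain ⟨N, hN1, hN2⟩ : ∃ N, d.natDegree ≤ N ∧ ∀ j, (m j).natDegree ≤ N := by
    refine ⟨max d.natDegree (Finset.univ.sup fun j => (m j).natDegree), le_max_left _ _, fun j => ?_⟩
    exact le_trans (Finset.le_sup (f := fun j => (m j).natDegree) (Finset.mem_univ j)) (le_max_right _ _)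
  have hC : ∀ x : F, reflect 1 (C x) = X * C x := by
    intro x
    rw [← mul_one (C x), reflect_C_mul, reflect_one, pow_one, mul_one, mul_comm]
  have hXC : ∀ x : F, reflect 1 (X * C x) = C x := by
    intro x
    have h1 := hC x
    have h2 := congrArg (reflect 1) h1
    rw [reflect_reflect] at h2
    exact h2.symm
  have hdeg : ∀ a b : F, (C a + X * C b : F[X]).natDegree ≤ 1 := by
    intro a b
    rw [add_comm, mul_comm]
    exact natDegree_linear_le
  refine ⟨fun j => reflect N (m j), X * reflect N d, ?_, fun i => ?_⟩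
  · refine mul_ne_zero X_ne_zero ?_
    rw [Ne, reflect_eq_zero_iff]
    exact hd
  · have h1 := congrArg (reflect (1 + N)) (h i)
    rw [reflect_mul _ _ (natDegree_C _ |>.trans_le zero_le_one) hN1, hC] at h1
    have h2 : reflect (1 + N) (∑ j, (C (S i j) + X * C (S j i)) * m j) =
        ∑ j, (C (S j i) + X * C (S i j)) * reflect N (m j) := by
      have h3 : ∀ (s : Finset (Fin k)) (g : Fin k → F[X]), reflect (1 + N) (∑ j ∈ s, g j) =
          ∑ j ∈ s, reflect (1 + N) (g j) := by
        intro s g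
        classical
        induction s using Finset.induction_on with
        | empty => simp
        | insert a s has ih => rw [Finset.sum_insert has, Finset.sum_insert has, reflect_add, ih]
      rw [h3]
      refine Finset.sum_congr rfl fun j _ => ?_
      rw [reflect_mul _ _ (hdeg _ _) (hN2 j), reflect_add, hC, hXC]
      ring
    rw [h2] at h1
    rw [h1]
    ring

lemma pen_transpose {k : ℕ} (S : Matrix (Fin k) (Fin k) F) :
    (pen (tt F) S)ᵀ = pen (tt F) Sᵀ := rfl

lemma sym_half {k : ℕ} (S : Matrix (Fin k) (Fin k) F) (l : Fin k → F)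
    (h : ∃ μ : Fin k → LaurentSeries F, pen (tt F) S *ᵥ μ = fun i => algebraMap F _ (l i)) :
    ∃ μ : Fin k → LaurentSeries F, pen (tt F) Sᵀ *ᵥ μ = fun i => algebraMap F _ (l i) := by
  obtain ⟨m, d, hd, hm⟩ := exists_poly S l h
  obtain ⟨m', d', hd', hm'⟩ := poly_reflect S l m d hd hm
  exact exists_series Sᵀ l m' d' hd' (fun i => hm' i)

end

theorem stSym : StSym.{u} := by
  intro F _ k S l
  constructor
  · intro h
    obtain ⟨μ, hμ⟩ := sym_half S l h
    refine ⟨μ, ?_⟩
    rw [← Matrix.mulVec_transpose, pen_transpose]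
    exact hμ
  · rintro ⟨μ, hμ⟩
    rw [← Matrix.mulVec_transpose, pen_transpose] at hμ
    obtain ⟨ν, hν⟩ := sym_half Sᵀ l ⟨μ, hμ⟩
    exact ⟨ν, hν⟩

end Pool.Agent.T9h78.Sing
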