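import Pool.Agent.T9h78.Sing.Fin
import Pool.Agent.T9h78.Sing.Bord
import Pool.Agent.T9h78.Sing.Sym
import Pool.Agent.T9h78.Sing.Shift
import Pool.Agent.T9h65.Sing.Chain
import Pool.Agent.T9h12.Sing.Rank
import Pool.Agent.T9h41.Sing.Model
import Pool.Agent.T9h79.Sing.WallSp
import Pool.Agent.T9h79.Sing.Last
import Pool.Agent.T9h84.Sing.Gauss
import Pool.Agent.T9h84.Sing.Count

namespace Pool.Agent.T9h78.Sing

universe u

theorem stW : StW.{u} :=
  stW_of stBord stSym (Pool.Agent.T9h65.Sing.stChain stSym) (stSpe stSym) (stShift stBord stSym)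

variable {F V : Type u} [Field F] [Fintype F] [AddCommGroup V] [Module F V] [FiniteDimensional F V]

/-- the number of semi-orthogonal tuples for the Wall form -/
theorem good_count (B : V →ₗ[F] V →ₗ[F] F) (ε : F) (hε0 : ε = 1 ∨ ε = -1) (hε : ∀ x y, B y x = ε * B x y)
    (hB : ∀ x, (∀ y, B x y = 0) → x = 0) (n : ℕ) (hn : 1 ≤ n) (hV : Module.finrank F V = 2 * n)
    (c : V ≃ₗ[F] V) (hc : ∀ x y, B (c x) (c y) = B x y) (hirr : IsIrred c)
    (hord : orderOf c = Fintype.card F ^ n + 1) :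
    (∀ x, c x = x → x = 0) ∧ ∃ X : V →ₗ[F] V →ₗ[F] F, (∀ x y, X (x - c x) y = B x y) ∧
      Nat.card {w : Fin (2 * n) → V // Good (fun x y => X x y) w} =
        ((Fintype.card F) ^ n + 1) ^ (2 * n - 1) * (Fintype.card F - 1) ^ (2 * n) := by
  have hfix : ∀ x, c x = x → x = 0 := by
    let W : Submodule F V := LinearMap.ker ((c : V →ₗ[F] V) - LinearMap.id)
    have hW : ∀ x, x ∈ W ↔ c x = x := by
      intro x
      rw [LinearMap.mem_ker, LinearMap.sub_apply, sub_eq_zero]
      rfl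
    rcases hirr W (fun x hx => (hW _).2 (by rw [(hW x).1 hx, (hW x).1 hx])) with h | h
    · intro x hx
      have : x ∈ W := (hW x).2 hx
      rw [h] at this
      simpa using this
    · exfalso
      have h1 : c = 1 := by
        ext x
        have : x ∈ W := by rw [h]; trivial
        exact (hW x).1 this
      rw [h1, orderOf_one] at hord
      have : 0 < Fintype.card F ^ n := pow_pos Fintype.card_pos n
      omega
  refine ⟨hfix, ?_⟩
  have hinj : Function.Injective ((LinearMap.id : V →ₗ[F] V) - (c : V →ₗ[F] V)) := by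
    rw [injective_iff_map_eq_zero]
    intro x hx
    rw [LinearMap.sub_apply, sub_eq_zero] at hx
    exact hfix x hx.symm
  let D : V ≃ₗ[F] V := LinearEquiv.ofInjectiveEndo _ hinj
  have hD : ∀ x, D x = x - c x := fun x => rfl
  let X : V →ₗ[F] V →ₗ[F] F := B ∘ₗ (D.symm : V →ₗ[F] V)
  have hX : ∀ x y, X (x - c x) y = B x y := by
    intro x y
    change B (D.symm (x - c x)) y = B x y
    rw [← hD, D.symm_apply_apply]
  have hsurj : ∀ x, ∃ x', x = x' - c x' := by
    intro x
    exact ⟨D.symm x, by rw [← hD, D.apply_symm_apply]⟩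
  refine ⟨X, hX, ?_⟩
  have hXn : ∀ x, (∀ y, X x y = 0) → x = 0 := by
    intro x hx
    obtain ⟨x', rfl⟩ := hsurj x
    have h1 : x' = 0 := hB x' (fun y => by rw [← hX]; exact hx y)
    rw [h1]; simp
  have hXc : ∀ x y, X (c x) (c y) = X x y := by
    intro x y
    obtain ⟨x', rfl⟩ := hsurj x
    rw [map_sub, hX, hX, hc]
  have hXκ : ∀ x y, X y x = (-ε) * X (c x) y := by
    intro x y
    obtain ⟨x', rfl⟩ := hsurj x
    obtain ⟨y', rfl⟩ := hsurj y
    rw [hX, map_sub c, hX, map_sub, map_sub, hc, hε x' y', hε (c x') y']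
    ring
  have hκ : -ε = 1 ∨ -ε = -1 := by
    rcases hε0 with h | h
    · right; rw [h]
    · left; rw [h, neg_neg]
  exact count_V stW Pool.Agent.T9h12.Sing.stRank Pool.Agent.T9h84.Sing.stGauss Pool.Agent.T9h84.Sing.stCount
    Pool.Agent.T9h79.Sing.stLast Pool.Agent.T9h41.Sing.stModel F V n X c (-ε) hn hV hirr hord hXn hXc hκ hXκ

lemma cancel (F : Type u) [Field F] [Fintype F] {a b N : ℕ} (h : a * (Fintype.card F - 1) ^ N = b * (Fintype.card F - 1) ^ N) :
    a = b := by
  have h1 : 1 < Fintype.card F := Fintype.one_lt_card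
  exact Nat.eq_of_mul_eq_mul_right (pow_pos (by omega) N) h

theorem main_sp (n : ℕ) (hn : 1 ≤ n) (hV : Module.finrank F V = 2 * n) (B : V →ₗ[F] V →ₗ[F] F)
    (hA : ∀ x, B x x = 0) (hB : ∀ x, (∀ y, B x y = 0) → x = 0) (c : V ≃ₗ[F] V) (hc : c ∈ SpG B)
    (hirr : IsIrred c) (hord : orderOf c = Fintype.card F ^ n + 1) :
    Nat.card (Facts (SpG B) (2 * n) c) = (Fintype.card F ^ n + 1) ^ (2 * n - 1) := by
  have hε : ∀ x y, B y x = (-1) * B x y := by
    intro x y
    have h1 := hA (x + y)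
    simp only [map_add, LinearMap.add_apply, hA] at h1
    linear_combination h1
  obtain ⟨hfix, X, hX, hcard⟩ := good_count B (-1) (Or.inr rfl) hε hB n hn hV c hc hirr hord
  have h1 := Pool.Agent.T9h79.Sing.stWallSp F V B X c hA hB hc hfix hX
  rw [hV, hcard] at h1
  exact cancel F h1

theorem main_o (n : ℕ) (hn : 1 ≤ n) (hV : Module.finrank F V = 2 * n) (Q : QuadraticForm F V)
    (hQ : ∀ x, (∀ y, QuadraticMap.polar Q x y = 0) → x = 0) (c : V ≃ₗ[F] V) (hc : c ∈ OG Q)
    (hirr : IsIrred c) (hord : orderOf c = Fintype.card F ^ n + 1) :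
    Nat.card (Facts (OG Q) (2 * n) c) = (Fintype.card F ^ n + 1) ^ (2 * n - 1) := by
  have hcc : ∀ x, Q (c x) = Q x := hc
  have hB1 : ∀ x y, QuadraticMap.polarBilin Q x y = QuadraticMap.polar Q x y := fun x y => rfl
  have hε : ∀ x y, QuadraticMap.polarBilin Q y x = 1 * QuadraticMap.polarBilin Q x y := by
    intro x y
    rw [one_mul, hB1, hB1, QuadraticMap.polar_comm]
  have hiso : ∀ x y, QuadraticMap.polarBilin Q (c x) (c y) = QuadraticMap.polarBilin Q x y := by
    intro x y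
    rw [hB1, hB1]
    unfold QuadraticMap.polar
    rw [← map_add, hcc, hcc, hcc]
  obtain ⟨hfix, X, hX, hcard⟩ := good_count (QuadraticMap.polarBilin Q) 1 (Or.inl rfl) hε
    (fun x hx => hQ x (fun y => by rw [← hB1]; exact hx y)) n hn hV c hiso hirr hord
  have h1 := Pool.Agent.T9h79.Sing.stWallO F V Q X c hQ hc hfix (fun x y => by rw [hX, hB1])
  rw [hV, hcard] at h1
  exact cancel F h1

end Pool.Agent.T9h78.Sing
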