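import Pool.Agent.T9h78.Sing.Spec
/-!
PAPER PROOFS OF THE PIECES (q = |F|, P = S + t Sᵀ, K = F((t)), R = F[[t]])

(R2) Descend μ from K to RatFunc F (or FractionRing F[X]) by a linear retraction K → F(t)
 (LinearMap.exists_leftInverse_of_injective), clear denominators: P(t) m(t) = d(t) λ with polynomial m, d ≠ 0.
 Reversal (t -> 1/t, times t^(N+1), N ≥ all degrees): (t S + Sᵀ) m*(t) = t d*(t) λ, m* = reflect N m, d* = reflect N d ≠ 0;
 so λ = Pᵀ (m*/(t d*)), i.e. λ in the row space of P.  The other direction: the same with Sᵀ.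
 (Alternative: work with coefficients.)

(R4) Let μ ∈ R^k with Pμ = λ, λᵀμ = 0.  Then Lam S λ 0.  If also Pμ' = λ, t λᵀμ' = (1+t)s with μ' ∈ K^k:
 by (R2) λᵀ = νᵀP, so λᵀ(μ - μ') = νᵀP(μ-μ') = 0, hence (1+t)s = 0, s = 0.

(R3) Chains.  E_0 = 0, E_{n+1} = {y : ∃ y' ∈ E_n, Sᵀ y = - S y'} (increasing subspaces of F^k).
 (a) y ∈ E_l, z ∈ E_m, l ≤ m  ⇒  yᵀ S z = 0   (slide: y_lᵀ S z_m = (Sᵀy_l)ᵀ z_m = -(S y_{l-1})ᵀ z_m = - y_{l-1}ᵀ Sᵀ z_m
     = y_{l-1}ᵀ S z_{m-1} = …).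
 (b) if λ kills all E_n then there is μ ∈ R^k with Pμ = λ: D_0 = F^k, D_{n+1} = {a : ∃ b ∈ D_n, Sᵀ... } i.e. let
     D_{n+1} = {a : ∃ b ∈ D_n, S b = - Sᵀ a}; D_n decreasing, D_n = D_{n+1} = D for some n ≤ k, and then every a ∈ D has
     b ∈ D with S b = -Sᵀ a (infinite sequence by choice).  Duality: (S D_n)^⊥ = E_{n+1} (⊥ = annihilator for the dot
     product; (f^{-1}U)^⊥ = fᵀ(U^⊥)), so λ ∈ (E_∞)^⊥ = S D, λ = S μ_0, μ_0 ∈ D, S μ_{l+1} = - Sᵀ μ_l, μ = Σ μ_l t^l.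
 (c) if Lam S λ s and λ kills all E_n: take μ_R ∈ R^k of (b) and μ ∈ K^k of Lam; by (R2) λᵀμ = λᵀμ_R ∈ R, and
     t λᵀμ = (1+t)s gives s = 0 (value at t = 0), so λᵀμ_R = 0, i.e. λ is special.
     Conversely a special λ kills all E_n: for a chain Sᵀy_1 = 0, Sᵀy_{l+1} = -S y_l put w = Σ_{l≤n} y_l t^{-(n+1-l)};
     Pᵀ w = S y_n, so λᵀ w = μᵀPᵀw = μᵀ S y_n ∈ R (Pμ = λ, μ ∈ R^k): the polar part Σ λ(y_l) t^{-(n+1-l)} is 0.
 (d) so the sum is over (λ,s) with Lam S λ s and λ not killing all E_n; split by the least n with λ(E_n) ≠ 0.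
     For y = y_n ∈ E_n (chain y_1..y_n), ν = Σ y_l t^{n-l} has Pν = S y_n.  If λ kills E_{n-1}, Pμ = λ and
     t λᵀμ = (1+t)s, then λ' = λ + S y satisfies P(μ+ν) = λ', t λ'ᵀ(μ+ν) = (1+t)(s + λ(y)), because
     λᵀν = λ(y), (S y)ᵀμ = wᵀPμ = wᵀλ = λ(y) t^{-1}, (S y)ᵀν = wᵀ P ν = wᵀ S y = 0 by (a).
     λ' = λ on E_n by (a), so n is the same.  Hence for every y ∈ E_n the map (λ,s) ↦ (λ + S y, s + λ(y)) is a
     bijection of Λ_n = {Lam S λ s, least n}, and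
     |E_n| Σ_{Λ_n} f(s) = Σ_{Λ_n} Σ_{y ∈ E_n} f(s + λ(y)) = Σ_{Λ_n} (|E_n|/q) Σ_{s ∈ F} f(s) = 0.

(R5) Fix l ≠ 0, b = least index with l_b ≠ 0.  For c ∈ F let S_c = S + c e_b lᵀ (row b gets c·l): upper triangular if S is
 (l_d = 0 for d < b).  Spe S l ⇒ Spe S_c l: P_c = P + c e_b lᵀ + t c l e_bᵀ, with Pμ = l, lᵀμ = 0:
 P_c μ = (1 + t c μ_b) l, 1 + t c μ_b is a unit of F[[t]], μ' = μ/(1 + t c μ_b).  grk S_c = grk S: both equal the generic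
 rank of the bordered matrix [[0,lᵀ],[0,S]] resp. [[0,lᵀ],[0,S_c]] ((R1) second clause, with (R2)); these two are congruent by the
 constant matrix T (row b += c row 0; column b += c column 0, column 0 of the constant matrix being 0): P'_c = T P' Tᵀ.
 wt S_c = Π_{a≠b} f(s_aa) · f(s_bb + c l_b), and Σ_c f(s_bb + c l_b) = Σ_s f(s) = 0.  So q · Σ = 0.

(R6) W_{k+1} = Σ_{S ∈ UT_k} wt S Σ_{λ,s} f(s) x^{grk [[s,λᵀ],[0,S]]}.  Inner sum: λ not in col P: rank + 2 for all s, Σ f = 0;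
 λ = Pμ: rank + [ (1+t)s ≠ t λᵀμ ]: gives f(s_0)(1-x)x^{grk S} if Lam S λ s_0, else 0.  With (R3), (R4): inner sum =
 (q-1)(1-x) x^{grk S} #{λ : Spe S λ}; with (R5) only λ = 0 counts: W_{k+1} = (q-1)(1-x) W_k.

(B) ranks by minors: r ≤ rank A iff some r×r submatrix has det ≠ 0.  A minor of S + X Sᵀ over F[X] is a polynomial of degree
 ≤ k < deg minpoly s: it is zero iff its value at s is zero iff its image in F((X)) is zero.

(G) W finite-dimensional over L with sesquilinear form m(v,w) (L-linear in v, Frobenius^n-linear in w); h(v,w) = m(v,w) + m(w,v)^Q.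
 φ(z - z^Q) = 1 for all z.  If h = 0: m(v,v) + m(v,v)^Q = 0, so m(v,v) = z - z^Q for some z (the F-linear... additive map z ↦ z - z^Q has
 image = {m : m + m^Q = 0}, both have Q elements), so φ(m(v,v)) = 1.  Else choose v_0 with h(v_0,v_0) ≠ 0 (if all h(v,v) = 0 then
 h(zv,w) + h(zv,w)^Q = 0 for all z gives h = 0), W = L v_0 ⊕ v_0^⊥ (h-orthogonal), φ(m(zv_0,w) + m(w,zv_0)) = φ(h(zv_0,w)) = 1, so the sum
 factors; Σ_z φ(m z^{Q+1}) = -Q if m + m^Q ≠ 0: z ↦ z^{Q+1} is (Q+1)-to-1 from L^* onto K^* = {y ≠ 0 : y^Q = y}, and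
 Σ_{y ∈ K} φ(m y) = 0 because φ is nontrivial, trivial on {z - z^Q}, and L = mK + {z - z^Q}.  Induction on dim (or on i with matrices).

(C) q·1[X = 0] = Σ_s ψ(sX), q·1[X ≠ 0] = Σ_s f(s) ψ(sX); expand the product over the pairs a ≤ b.

(E) w_0..w_{m-1} good ⇒ linearly independent, Gram matrix triangular; {v : X w_a v = 0 ∀ a} is a line, and a nonzero v in it
 has X v v ≠ 0 (else X(·, v) = 0 on all of V = span(w) ⊕ v).  So q - 1 choices.

(W1),(W2) t = 1 - κ B(·,v)v (v ≠ 0, κ ≠ 0; in the orthogonal case κ = 1/Q(v)): every reflection of G has this form, v unique up to F^*.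
 Product formula: for t_i = 1 - φ_i ⊗ v_i (x ↦ x - φ_i(x) v_i): 1 - t_1⋯t_N = U T^{-1} Φ, U = (v_i) : F^N → V, Φ = (φ_i) : V → F^N,
 T = unipotent upper triangular, T_ij = φ_i(v_j) for i < j (induction on N; or: for x put y_N = x, y_{i-1} = t_i y_i, a_i = φ_i(y_i):
 x - c x = Σ a_i v_i, φ_i(x) = a_i + Σ_{j>i} φ_i(v_j) a_j).  With 1 - c invertible and N = dim V, U and Φ are invertible, and
 c = t_1⋯t_N iff Φ (1-c)^{-1} U = T, i.e. κ_i X(v_j, v_i) = T_ij  (X(x,y) = B((1-c)^{-1}x, y)): X(v_a,v_b) = 0 for a < b,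
 κ_i X(v_i,v_i) = 1, and for i < j: X(v_j,v_i) = B(v_j,v_i), which is equivalent to X(v_i,v_j) = 0 because of the identity
 B(w,v) = X(w,v) + ε X(v,w) (ε = -1 alternating, +1 symmetric).  In the orthogonal case X(v,v) = Q(v) always.
 So (v_i) ↦ (t_i), κ_i = 1/X(v_i,v_i), is a surjection from Good tuples onto Facts with fibres of size (q-1)^N.

(M) L = F[X]/(minpoly c) (c irreducible ⇒ minpoly irreducible of degree 2n, V ≅ L as F[X]-module, c = multiplication by θ).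
 θ^{q^n} = θ^{-1}.  X(θx,y) = X(x,θ^{-1}y) ⇒ X(ax,y) = X(x,a^{q^n} y) for a ∈ L ⇒ X(x,y) = g(x y^{q^n}), g = Tr(α ·), α ≠ 0.
 X(y,x) = κ X(cx,y) ⇒ g(y x^Q) = g((y x^Q)^Q)~ : Tr(α y x^Q) = Tr(α^Q y^Q x) = Tr(κ θ α x y^Q) for all x,y ⇒ α^Q = κθ α; s = κθ generates L.
-/
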