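import Pool.Agent.T9h78.Sing.W

namespace Pool.Agent.T9h78.Sing

open Matrix BigOperators

universe u

section
variable {F : Type u} [Field F]

/-- the coercion of power series to Laurent series, as a ring homomorphism -/
noncomputable def emb (F : Type u) [Field F] : PowerSeries F →+* LaurentSeries F := HahnSeries.ofPowerSeries ℤ F

lemma emb_inj : Function.Injective (emb F) := HahnSeries.ofPowerSeries_injective

lemma emb_X : emb F PowerSeries.X = tt F := rfl

lemma emb_alg (a : F) : emb F (algebraMap F _ a) = algebraMap F (LaurentSeries F) a := rfl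

lemma emb_pen {k : ℕ} (S : Matrix (Fin k) (Fin k) F) (μ : Fin k → PowerSeries F) (i : Fin k) :
    emb F ((pen (PowerSeries.X : PowerSeries F) S *ᵥ μ) i) = (pen (tt F) S *ᵥ (fun j => emb F (μ j))) i := by
  simp only [Matrix.mulVec, dotProduct, map_sum, map_mul, pen, map_add, emb_alg, emb_X]

lemma emb_dot {k : ℕ} (l : Fin k → F) (μ : Fin k → PowerSeries F) :
    emb F ((fun i => algebraMap F (PowerSeries F) (l i)) ⬝ᵥ μ) =
      (fun i => algebraMap F (LaurentSeries F) (l i)) ⬝ᵥ (fun j => emb F (μ j)) := by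
  simp only [dotProduct, map_sum, map_mul, emb_alg]

lemma Spe.embed {k : ℕ} {S : Matrix (Fin k) (Fin k) F} {l : Fin k → F} (h : Spe S l) :
    ∃ μ : Fin k → LaurentSeries F, pen (tt F) S *ᵥ μ = (fun i => algebraMap F _ (l i)) ∧
    (fun i => algebraMap F (LaurentSeries F) (l i)) ⬝ᵥ μ = 0 := by
  obtain ⟨μ, h1, h2⟩ := h
  refine ⟨fun j => emb F (μ j), ?_, ?_⟩
  · funext i
    rw [← emb_pen, h1, emb_alg]
  · rw [← emb_dot, h2, map_zero]

lemma one_add_tt_ne_zero : (1 + tt F) ≠ 0 := by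
  intro h
  have h1 : emb F (1 + PowerSeries.X) = emb F 0 := by
    rw [map_add, map_one, emb_X, h, map_zero]
  have h2 := emb_inj h1
  have h3 := congrArg (PowerSeries.constantCoeff (R := F)) h2
  simp at h3

end

theorem stSpe (hS : StSym.{u}) : StSpe.{u} := by
  intro F _ k S l h
  obtain ⟨μ, h1, h2⟩ := h.embed
  refine ⟨⟨μ, h1, by rw [h2]; simp⟩, ?_⟩
  rintro s ⟨ν, h3, h4⟩
  obtain ⟨μ', hμ'⟩ := (hS F k S l).1 ⟨μ, h1⟩
  have h5 : (fun i => algebraMap F (LaurentSeries F) (l i)) ⬝ᵥ ν = 0 := by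
    rw [← h2, ← hμ', ← Matrix.dotProduct_mulVec, ← Matrix.dotProduct_mulVec, h1, h3]
  rw [h5, mul_zero] at h4
  have h6 := (mul_eq_zero.1 h4.symm).resolve_left one_add_tt_ne_zero
  exact (map_eq_zero _).1 h6

end Pool.Agent.T9h78.Sing
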