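import Mathlib

/-!
# Singer cycles in `Sp_{2n}(q)` and `O_{2n}^-(q)` (MP_f86ddb_al): specification of the pieces

Theorem.  `F` finite field, `q = |F|`, `dim V = 2n`, `G` the isometry group of a nondegenerate alternating
form or of a quadratic form with nondegenerate polar form, `c ∈ G` irreducible of order `q^n+1`.
The number of `(t_1,…,t_{2n})` (reflections of `G`) with `t_1 ⋯ t_{2n} = c` is `(q^n+1)^{2n-1}`.
-/

namespace Pool.Agent.T9h78.Sing

open Matrix BigOperators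

universe u v

/-! ### the final statement -/

section Stmt
variable {F : Type u} [Field F] {V : Type v} [AddCommGroup V] [Module F V]

/-- a non-identity element fixing some hyperplane pointwise -/
def IsRefl (g : V ≃ₗ[F] V) : Prop :=
  g ≠ 1 ∧ ∃ H : Submodule F V, Module.finrank F H + 1 = Module.finrank F V ∧ ∀ x ∈ H, g x = x

/-- `0` and `V` are the only invariant subspaces -/
def IsIrred (g : V ≃ₗ[F] V) : Prop :=
  ∀ W : Submodule F V, (∀ x ∈ W, g x ∈ W) → W = ⊥ ∨ W = ⊤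

/-- isometry group of a bilinear form -/
def SpG (B : V →ₗ[F] V →ₗ[F] F) : Set (V ≃ₗ[F] V) := {g | ∀ x y, B (g x) (g y) = B x y}

/-- isometry group of a quadratic form -/
def OG (Q : QuadraticForm F V) : Set (V ≃ₗ[F] V) := {g | ∀ x, Q (g x) = Q x}

/-- factorizations of `c` into `N` reflections of `G` -/
def Facts (G : Set (V ≃ₗ[F] V)) (N : ℕ) (c : V ≃ₗ[F] V) : Set (Fin N → (V ≃ₗ[F] V)) :=
  {t | (∀ i, t i ∈ G ∧ IsRefl (t i)) ∧ (List.ofFn t).prod = c}

/-- semi-orthogonal tuples of non-isotropic vectors -/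
def Good {W : Type v} (X : W → W → F) {N : ℕ} (w : Fin N → W) : Prop :=
  (∀ a b, a < b → X (w a) (w b) = 0) ∧ ∀ a, X (w a) (w a) ≠ 0

end Stmt

/-! ### the pencil -/

/-- `S + t Sᵀ` -/
def pen {F : Type u} [Field F] {K : Type v} [CommRing K] [Algebra F K] (t : K) {k : ℕ}
    (S : Matrix (Fin k) (Fin k) F) : Matrix (Fin k) (Fin k) K :=
  fun a b => algebraMap F K (S a b) + t * algebraMap F K (S b a)

/-- upper triangular -/
def UT {F : Type u} [Field F] {k : ℕ} (S : Matrix (Fin k) (Fin k) F) : Prop := ∀ a b, b < a → S a b = 0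

/-- `f(0) = q - 1`, `f(s) = -1` for `s ≠ 0` -/
noncomputable def fw {F : Type u} [Field F] [Fintype F] (s : F) : ℂ := by
  classical exact if s = 0 then (Fintype.card F : ℂ) - 1 else -1

noncomputable def wt {F : Type u} [Field F] [Fintype F] {k : ℕ} (S : Matrix (Fin k) (Fin k) F) : ℂ :=
  ∏ a, fw (S a a)

/-- the generic parameter -/
noncomputable def tt (F : Type u) [Field F] : LaurentSeries F := ((PowerSeries.X : PowerSeries F) : LaurentSeries F)

/-- generic rank of the pencil `S + t Sᵀ` -/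
noncomputable def grk {F : Type u} [Field F] {k : ℕ} (S : Matrix (Fin k) (Fin k) F) : ℕ :=
  (pen (tt F) S).rank

/-- bordered matrix: row 0 is `(d, r)`, column 0 is `(d, c)`, the rest is `P` -/
def bord {K : Type v} {k : ℕ} (d : K) (r c : Fin k → K) (P : Matrix (Fin k) (Fin k) K) :
    Matrix (Fin (k+1)) (Fin (k+1)) K :=
  Matrix.of (Fin.cons (Fin.cons d r) (fun i => Fin.cons (c i) (P i)))

/-! ### Pieces -/

/-- (R1) rank of a bordered matrix (pure linear algebra over a field) -/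
def StBord : Prop := ∀ (K : Type u) [Field K] (k : ℕ) (d : K) (r c : Fin k → K) (P : Matrix (Fin k) (Fin k) K),
  ((¬ ∃ μ, P *ᵥ μ = c) → (¬ ∃ μ, μ ᵥ* P = r) → (bord d r c P).rank = P.rank + 2) ∧
  (∀ μ μ', P *ᵥ μ = c → μ' ᵥ* P = r → d = r ⬝ᵥ μ → (bord d r c P).rank = P.rank) ∧
  (∀ μ μ', P *ᵥ μ = c → μ' ᵥ* P = r → d ≠ r ⬝ᵥ μ → (bord d r c P).rank = P.rank + 1)

/-- (R2) symmetry `t ↦ 1/t`: a constant vector is in the column space of `S + t Sᵀ` iff it is in the row space -/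
def StSym : Prop := ∀ (F : Type u) [Field F] (k : ℕ) (S : Matrix (Fin k) (Fin k) F) (l : Fin k → F),
  (∃ μ : Fin k → LaurentSeries F, pen (tt F) S *ᵥ μ = fun i => algebraMap F _ (l i)) ↔
  (∃ μ : Fin k → LaurentSeries F, μ ᵥ* pen (tt F) S = fun i => algebraMap F _ (l i))

/-- `λ ∈ Λ(S)` with value `s` -/
def Lam {F : Type u} [Field F] {k : ℕ} (S : Matrix (Fin k) (Fin k) F) (l : Fin k → F) (s : F) : Prop :=
  ∃ μ : Fin k → LaurentSeries F, pen (tt F) S *ᵥ μ = (fun i => algebraMap F _ (l i)) ∧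
    tt F * ((fun i => algebraMap F (LaurentSeries F) (l i)) ⬝ᵥ μ) = (1 + tt F) * algebraMap F _ s

/-- `λ` is special for `S`: `(S + tSᵀ) μ = λ`, `λᵀ μ = 0` with a power series vector `μ` -/
def Spe {F : Type u} [Field F] {k : ℕ} (S : Matrix (Fin k) (Fin k) F) (l : Fin k → F) : Prop :=
  ∃ μ : Fin k → PowerSeries F,
    pen (PowerSeries.X : PowerSeries F) S *ᵥ μ = (fun i => algebraMap F _ (l i)) ∧
    (fun i => algebraMap F (PowerSeries F) (l i)) ⬝ᵥ μ = 0

open scoped Classical in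
/-- (R3) the pairs `(λ, s)` with `λ ∈ Λ(S)` not special have total weight `0` -/
def StChain : Prop := ∀ (F : Type u) [Field F] [Fintype F] (k : ℕ) (S : Matrix (Fin k) (Fin k) F),
  (∑ p : (Fin k → F) × F, if Lam S p.1 p.2 ∧ ¬ Spe S p.1 then fw p.2 else 0) = 0

/-- (R4) special vectors -/
def StSpe : Prop := ∀ (F : Type u) [Field F] (k : ℕ) (S : Matrix (Fin k) (Fin k) F) (l : Fin k → F),
  Spe S l → (Lam S l 0 ∧ ∀ s, Lam S l s → s = 0)

open scoped Classical in
/-- (R5) the shift: nonzero special vectors have total weight `0` over upper triangular `S` -/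
def StShift : Prop := ∀ (F : Type u) [Field F] [Fintype F] (k : ℕ) (x : ℂ) (l : Fin k → F), l ≠ 0 →
  (∑ S : Matrix (Fin k) (Fin k) F, if UT S ∧ Spe S l then wt S * x ^ grk S else 0) = 0

open scoped Classical in
/-- (R6) the recursion, hence the identity `W_k = ((q-1)(1-x))^k` -/
def StW : Prop := ∀ (F : Type u) [Field F] [Fintype F] (k : ℕ) (x : ℂ),
  (∑ S : Matrix (Fin k) (Fin k) F, if UT S then wt S * x ^ grk S else 0) =
    (((Fintype.card F : ℂ) - 1) * (1 - x)) ^ k

/-- (B) generic rank = rank at an element of large degree -/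
def StRank : Prop := ∀ (F L : Type u) [Field F] [Field L] [Algebra F L] (s : L) (k : ℕ),
  IsIntegral F s → k < (minpoly F s).natDegree → ∀ S : Matrix (Fin k) (Fin k) F, (pen s S).rank = grk S

/-- (G) Gauss sums of Hermitian forms over `L` (`|L| = Q^2`, involution `z ↦ z^Q`); `M` is arbitrary, the
Hermitian matrix is `M + (M^Q)ᵀ` -/
def StGauss : Prop := ∀ (F L : Type u) [Field F] [Fintype F] [Field L] [Fintype L] [Algebra F L] (n : ℕ),
  Fintype.card L = (Fintype.card F) ^ (2 * n) → ∀ φ : AddChar L ℂ, φ ≠ 1 →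
  (∀ z, φ (z ^ (Fintype.card F ^ n)) = φ z) → ∀ (i : ℕ) (M : Matrix (Fin i) (Fin i) L),
  (∑ v : Fin i → L, φ (∑ a, ∑ b, M a b * v a * (v b) ^ (Fintype.card F ^ n))) =
    ((Fintype.card F : ℂ) ^ (2 * n)) ^ i *
      (-1 / (Fintype.card F : ℂ) ^ n) ^
        (Matrix.rank (M + Matrix.of (fun a b => (M b a) ^ (Fintype.card F ^ n))))

open scoped Classical in
/-- (C) counting by characters, `X : W → W → F` arbitrary -/
def StCount : Prop := ∀ (F W : Type u) [Field F] [Fintype F] [Fintype W] (X : W → W → F) (ψ : AddChar F ℂ),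
  ψ ≠ 1 → ∀ i : ℕ,
  ((Nat.card {w : Fin i → W // Good X w} : ℂ)) * (Fintype.card F : ℂ) ^ (i * (i + 1) / 2) =
    ∑ S : Matrix (Fin i) (Fin i) F, if UT S then
      wt S * ∑ w : Fin i → W, ψ (∑ a, ∑ b, S a b * X (w a) (w b)) else 0

/-- (E) the last vector -/
def StLast : Prop := ∀ (F V : Type u) [Field F] [Fintype F] [AddCommGroup V] [Module F V]
  [FiniteDimensional F V] (X : V →ₗ[F] V →ₗ[F] F), (∀ x, (∀ y, X x y = 0) → x = 0) → ∀ m : ℕ,
  Module.finrank F V = m + 1 →
  Nat.card {w : Fin (m + 1) → V // Good (fun x y => X x y) w} =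
    (Fintype.card F - 1) * Nat.card {w : Fin m → V // Good (fun x y => X x y) w}

/-- (W1) Wall form, symplectic case -/
def StWallSp : Prop := ∀ (F V : Type u) [Field F] [Fintype F] [AddCommGroup V] [Module F V]
  [FiniteDimensional F V] (B X : V →ₗ[F] V →ₗ[F] F) (c : V ≃ₗ[F] V),
  (∀ x, B x x = 0) → (∀ x, (∀ y, B x y = 0) → x = 0) → c ∈ SpG B → (∀ x, c x = x → x = 0) →
  (∀ x y, X (x - c x) y = B x y) →
  Nat.card (Facts (SpG B) (Module.finrank F V) c) * (Fintype.card F - 1) ^ (Module.finrank F V) =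
    Nat.card {w : Fin (Module.finrank F V) → V // Good (fun x y => X x y) w}

/-- (W2) Wall form, orthogonal case -/
def StWallO : Prop := ∀ (F V : Type u) [Field F] [Fintype F] [AddCommGroup V] [Module F V]
  [FiniteDimensional F V] (Q : QuadraticForm F V) (X : V →ₗ[F] V →ₗ[F] F) (c : V ≃ₗ[F] V),
  (∀ x, (∀ y, QuadraticMap.polar Q x y = 0) → x = 0) → c ∈ OG Q → (∀ x, c x = x → x = 0) →
  (∀ x y, X (x - c x) y = QuadraticMap.polar Q x y) →
  Nat.card (Facts (OG Q) (Module.finrank F V) c) * (Fintype.card F - 1) ^ (Module.finrank F V) =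
    Nat.card {w : Fin (Module.finrank F V) → V // Good (fun x y => X x y) w}

/-- (M) the model: `V = L`, `X(x,y) = Tr(α x y^{q^n})`.  (`κ = 1` or `-1`.) -/
def StModel : Prop := ∀ (F V : Type u) [Field F] [Fintype F] [AddCommGroup V] [Module F V]
  [FiniteDimensional F V] (n : ℕ) (X : V →ₗ[F] V →ₗ[F] F) (c : V ≃ₗ[F] V) (κ : F),
  1 ≤ n → Module.finrank F V = 2 * n → IsIrred c → orderOf c = (Fintype.card F) ^ n + 1 →
  (∀ x, (∀ y, X x y = 0) → x = 0) → (∀ x y, X (c x) (c y) = X x y) → (κ = 1 ∨ κ = -1) →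
  (∀ x y, X y x = κ * X (c x) y) →
  ∃ (L : Type u) (_ : Field L) (_ : Fintype L) (_ : Algebra F L) (e : V ≃ₗ[F] L) (α s : L),
    Fintype.card L = (Fintype.card F) ^ (2 * n) ∧ (minpoly F s).natDegree = 2 * n ∧ α ≠ 0 ∧
    α ^ (Fintype.card F ^ n) = s * α ∧
    ∀ x y, X x y = Algebra.trace F L (α * e x * (e y) ^ (Fintype.card F ^ n))

end Pool.Agent.T9h78.Sing
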