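import Pool.Agent.T9h78.Sing.Spec

namespace Pool.Agent.T9h78.Sing

open Matrix BigOperators

universe u

section
variable {F : Type u} [Field F]

def bordEquiv (k : ℕ) (K : Type u) : ((K × (Fin k → K)) × ((Fin k → K) × Matrix (Fin k) (Fin k) K)) ≃
    Matrix (Fin (k+1)) (Fin (k+1)) K where
  toFun p := bord p.1.1 p.1.2 p.2.1 p.2.2
  invFun S := ((S 0 0, fun j => S 0 j.succ), (fun i => S i.succ 0, fun i j => S i.succ j.succ))
  left_inv p := by
    rcases p with ⟨⟨d, r⟩, ⟨c, P⟩⟩
    simp [bord]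
  right_inv S := by
    ext i j
    refine Fin.cases ?_ (fun i => ?_) i <;> refine Fin.cases ?_ (fun j => ?_) j <;> simp [bord]

@[simp] lemma bord_00 {K : Type u} {k : ℕ} (d : K) (r c : Fin k → K) (P : Matrix (Fin k) (Fin k) K) :
    bord d r c P 0 0 = d := rfl
@[simp] lemma bord_0s {K : Type u} {k : ℕ} (d : K) (r c : Fin k → K) (P : Matrix (Fin k) (Fin k) K) (j : Fin k) :
    bord d r c P 0 j.succ = r j := rfl
@[simp] lemma bord_s0 {K : Type u} {k : ℕ} (d : K) (r c : Fin k → K) (P : Matrix (Fin k) (Fin k) K) (i : Fin k) :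
    bord d r c P i.succ 0 = c i := rfl
@[simp] lemma bord_ss {K : Type u} {k : ℕ} (d : K) (r c : Fin k → K) (P : Matrix (Fin k) (Fin k) K) (i j : Fin k) :
    bord d r c P i.succ j.succ = P i j := rfl

lemma UT_bord {k : ℕ} (d : F) (r c : Fin k → F) (P : Matrix (Fin k) (Fin k) F) :
    UT (bord d r c P) ↔ c = 0 ∧ UT P := by
  constructor
  · intro h
    refine ⟨funext fun i => ?_, fun a b hab => ?_⟩
    · simpa using h i.succ 0 (Fin.succ_pos i)
    · simpa using h a.succ b.succ (by simpa using hab)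
  · rintro ⟨rfl, hP⟩ a b hab
    refine Fin.cases (fun b hab => ?_) (fun a b hab => ?_) a b hab
    · exact absurd hab (Fin.not_lt_zero b)
    · refine Fin.cases (fun _ => ?_) (fun b hab => ?_) b hab
      · simp
      · simpa using hP a b (by simpa using hab)

lemma pen_bord {K : Type u} [Field K] [Algebra F K] (t : K) {k : ℕ} (d : F) (r : Fin k → F)
    (P : Matrix (Fin k) (Fin k) F) :
    pen t (bord d r 0 P) = bord ((1 + t) * algebraMap F K d) (fun j => algebraMap F K (r j))
      (fun j => t * algebraMap F K (r j)) (pen t P) := by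
  ext i j
  refine Fin.cases ?_ (fun i => ?_) i <;> refine Fin.cases ?_ (fun j => ?_) j
  · simp [pen]; ring
  · simp [pen]
  · simp [pen]
  · simp [pen]

lemma tt_ne_zero : tt F ≠ 0 := by
  unfold tt
  intro h
  have h2 : (PowerSeries.X : PowerSeries F) = 0 := by
    apply HahnSeries.ofPowerSeries_injective (Γ := ℤ)
    simpa using h
  exact PowerSeries.X_ne_zero h2

end

section
variable {F : Type u} [Field F] [Fintype F]

lemma wt_bord {k : ℕ} (d : F) (r : Fin k → F) (P : Matrix (Fin k) (Fin k) F) :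
    wt (bord d r 0 P) = fw d * wt P := by
  simp [wt, Fin.prod_univ_succ]

lemma sum_fw : ∑ s : F, fw s = 0 := by
  classical
  have : ∀ s : F, fw s = (if s = 0 then (Fintype.card F : ℂ) else 0) - 1 := by
    intro s
    unfold fw
    split_ifs <;> simp
  simp_rw [this, Finset.sum_sub_distrib]
  simp

lemma fw_zero : fw (0 : F) = (Fintype.card F : ℂ) - 1 := by simp [fw]

omit [Fintype F] in
/-- the generic rank of the bordered matrix, `λ` in the column space -/
lemma grk_bord_mem (hB : StBord.{u}) (hS : StSym.{u}) {k : ℕ} (S : Matrix (Fin k) (Fin k) F) (l : Fin k → F)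
    (s : F) (hl : ∃ μ : Fin k → LaurentSeries F, pen (tt F) S *ᵥ μ = fun i => algebraMap F _ (l i)) :
    (Lam S l s → grk (bord s l 0 S) = grk S) ∧ (¬ Lam S l s → grk (bord s l 0 S) = grk S + 1) := by
  obtain ⟨μ', hμ'⟩ := (hS F k S l).1 hl
  obtain ⟨μ, hμ⟩ := hl
  obtain ⟨-, h1, h2⟩ := hB (LaurentSeries F) k ((1 + tt F) * algebraMap F _ s)
    (fun j => algebraMap F _ (l j)) (fun j => tt F * algebraMap F _ (l j)) (pen (tt F) S)
  have hc : pen (tt F) S *ᵥ (tt F • μ) = fun j => tt F * algebraMap F _ (l j) := by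
    rw [Matrix.mulVec_smul, hμ]; rfl
  have hdot : (fun j => algebraMap F (LaurentSeries F) (l j)) ⬝ᵥ (tt F • μ) =
      tt F * ((fun j => algebraMap F (LaurentSeries F) (l j)) ⬝ᵥ μ) := by
    rw [dotProduct_smul]; rfl
  have huniq : ∀ ν, pen (tt F) S *ᵥ ν = (fun i => algebraMap F _ (l i)) →
      (fun j => algebraMap F (LaurentSeries F) (l j)) ⬝ᵥ ν =
        (fun j => algebraMap F (LaurentSeries F) (l j)) ⬝ᵥ μ := by
    intro ν hν
    rw [← hμ', ← Matrix.dotProduct_mulVec, ← Matrix.dotProduct_mulVec, hν, hμ]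
  have hLam : Lam S l s ↔ (1 + tt F) * algebraMap F _ s =
      (fun j => algebraMap F (LaurentSeries F) (l j)) ⬝ᵥ (tt F • μ) := by
    rw [hdot]
    constructor
    · rintro ⟨ν, hν, h⟩
      rw [← h, huniq ν hν]
    · intro h
      exact ⟨μ, hμ, h.symm⟩
  unfold grk
  rw [pen_bord]
  exact ⟨fun h => h1 _ _ hc hμ' (hLam.1 h), fun h => h2 _ _ hc hμ' (fun h' => h (hLam.2 h'))⟩

omit [Fintype F] in
lemma grk_bord_nmem (hB : StBord.{u}) (hS : StSym.{u}) {k : ℕ} (S : Matrix (Fin k) (Fin k) F) (l : Fin k → F)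
    (s : F) (hl : ¬ ∃ μ : Fin k → LaurentSeries F, pen (tt F) S *ᵥ μ = fun i => algebraMap F _ (l i)) :
    grk (bord s l 0 S) = grk S + 2 := by
  obtain ⟨h0, -, -⟩ := hB (LaurentSeries F) k ((1 + tt F) * algebraMap F _ s)
    (fun j => algebraMap F _ (l j)) (fun j => tt F * algebraMap F _ (l j)) (pen (tt F) S)
  unfold grk
  rw [pen_bord]
  refine h0 ?_ (fun h => hl ((hS F k S l).2 h))
  rintro ⟨μ, hμ⟩
  refine hl ⟨(tt F)⁻¹ • μ, ?_⟩
  rw [Matrix.mulVec_smul, hμ]
  funext i
  simp only [Pi.smul_apply, smul_eq_mul]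
  rw [← mul_assoc, inv_mul_cancel₀ tt_ne_zero, one_mul]

open scoped Classical in
lemma inner_sum (hB : StBord.{u}) (hS : StSym.{u}) {k : ℕ} (S : Matrix (Fin k) (Fin k) F) (l : Fin k → F) (x : ℂ) :
    ∑ s : F, fw s * x ^ grk (bord s l 0 S) =
      x ^ grk S * (1 - x) * ∑ s : F, if Lam S l s then fw s else 0 := by
  by_cases hl : ∃ μ : Fin k → LaurentSeries F, pen (tt F) S *ᵥ μ = fun i => algebraMap F _ (l i)
  · have h : ∀ s : F, fw s * x ^ grk (bord s l 0 S) =
        fw s * x ^ (grk S + 1) + x ^ grk S * (1 - x) * (if Lam S l s then fw s else 0) := by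
      intro s
      obtain ⟨h1, h2⟩ := grk_bord_mem hB hS S l s hl
      by_cases hL : Lam S l s
      · rw [h1 hL, if_pos hL]; ring
      · rw [h2 hL, if_neg hL]; ring
    rw [Finset.sum_congr rfl (fun s _ => h s), Finset.sum_add_distrib, ← Finset.sum_mul, sum_fw, zero_mul, zero_add,
      ← Finset.mul_sum]
  · have h : ∀ s : F, ¬ Lam S l s := by
      rintro s ⟨μ, hμ, -⟩
      exact hl ⟨μ, hμ⟩
    have h3 : ∀ s : F, fw s * x ^ grk (bord s l 0 S) = fw s * x ^ (grk S + 2) := by
      intro s; rw [grk_bord_nmem hB hS S l s hl]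
    rw [Finset.sum_congr rfl (fun s _ => h3 s), ← Finset.sum_mul, sum_fw, zero_mul]
    simp [h]

open scoped Classical in
lemma lam_sum (hC : StChain.{u}) (hE : StSpe.{u}) {k : ℕ} (S : Matrix (Fin k) (Fin k) F) :
    ∑ l : Fin k → F, ∑ s : F, (if Lam S l s then fw s else 0) =
      ((Fintype.card F : ℂ) - 1) * ∑ l : Fin k → F, (if Spe S l then 1 else 0) := by
  have h1 : ∀ l : Fin k → F, ∑ s : F, (if Lam S l s then fw s else 0) =
      ((Fintype.card F : ℂ) - 1) * (if Spe S l then 1 else 0) +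
        ∑ s : F, (if Lam S l s ∧ ¬ Spe S l then fw s else 0) := by
    intro l
    by_cases hl : Spe S l
    · obtain ⟨h0, hu⟩ := hE F k S l hl
      have : ∀ s : F, (if Lam S l s then fw s else 0) = if s = 0 then ((Fintype.card F : ℂ) - 1) else 0 := by
        intro s
        by_cases hs : s = 0
        · subst hs; rw [if_pos h0, if_pos rfl, fw_zero]
        · rw [if_neg hs, if_neg (fun h => hs (hu s h))]
      simp_rw [this]
      simp [hl]
    · simp [hl]
  simp_rw [h1]
  rw [Finset.sum_add_distrib, ← Finset.mul_sum, ← Fintype.sum_prod_type' (fun (l : Fin k → F) (s : F) => if Lam S l s ∧ ¬ Spe S l then fw s else 0)]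
  have := hC F k S
  rw [this, add_zero]

open scoped Classical in
theorem stW_of (hB : StBord.{u}) (hS : StSym.{u}) (hC : StChain.{u}) (hE : StSpe.{u}) (hH : StShift.{u}) :
    StW.{u} := by
  intro F _ _ k x
  induction k with
  | zero =>
    have : (Finset.univ : Finset (Matrix (Fin 0) (Fin 0) F)) = {0} := by
      ext S; simp [Subsingleton.elim S 0]
    rw [this, Finset.sum_singleton]
    have h0 : UT (0 : Matrix (Fin 0) (Fin 0) F) := fun a => a.elim0
    rw [if_pos h0]
    have hr : grk (0 : Matrix (Fin 0) (Fin 0) F) = 0 := by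
      unfold grk
      have := Matrix.rank_le_card_width (pen (tt F) (0 : Matrix (Fin 0) (Fin 0) F))
      simpa using this
    rw [hr]; simp [wt]
  | succ k ih =>
    rw [← (bordEquiv k F).sum_comp, Fintype.sum_prod_type]
    have h1 : ∀ p : F × (Fin k → F), ∀ y : (Fin k → F) × Matrix (Fin k) (Fin k) F,
        (if UT (bordEquiv k F (p, y)) then wt (bordEquiv k F (p, y)) * x ^ grk (bordEquiv k F (p, y)) else 0) =
        if y.1 = 0 then (if UT y.2 then fw p.1 * wt y.2 * x ^ grk (bord p.1 p.2 0 y.2) else 0) else 0 := by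
      rintro ⟨d, r⟩ ⟨c, P⟩
      change (if UT (bord d r c P) then wt (bord d r c P) * x ^ grk (bord d r c P) else 0) = _
      by_cases hc : c = 0
      · subst hc
        rw [if_pos rfl]
        by_cases hP : UT P
        · rw [if_pos hP, if_pos ((UT_bord d r 0 P).2 ⟨rfl, hP⟩), wt_bord]
        · rw [if_neg hP, if_neg (fun h => hP ((UT_bord d r 0 P).1 h).2)]
      · rw [if_neg hc, if_neg (fun h => hc ((UT_bord d r c P).1 h).1)]
    simp_rw [h1]
    have h2 : ∀ p : F × (Fin k → F), (∑ y : (Fin k → F) × Matrix (Fin k) (Fin k) F,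
        if y.1 = 0 then (if UT y.2 then fw p.1 * wt y.2 * x ^ grk (bord p.1 p.2 0 y.2) else 0) else 0) =
        ∑ S : Matrix (Fin k) (Fin k) F, if UT S then fw p.1 * wt S * x ^ grk (bord p.1 p.2 0 S) else 0 := by
      intro p
      rw [Fintype.sum_prod_type]
      rw [Finset.sum_eq_single (0 : Fin k → F)]
      · simp
      · intro c _ hc
        simp [hc]
      · simp
    simp_rw [h2]
    rw [Finset.sum_comm]
    have h3 : ∀ S : Matrix (Fin k) (Fin k) F,
        (∑ p : F × (Fin k → F), if UT S then fw p.1 * wt S * x ^ grk (bord p.1 p.2 0 S) else 0) =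
        (((Fintype.card F : ℂ) - 1) * (1 - x)) * ∑ l : Fin k → F,
          if UT S ∧ Spe S l then wt S * x ^ grk S else 0 := by
      intro S
      by_cases hU : UT S
      · simp only [hU, if_true, true_and]
        rw [Fintype.sum_prod_type, Finset.sum_comm]
        have h4 : ∀ l : Fin k → F, ∑ s : F, fw s * wt S * x ^ grk (bord s l 0 S) =
            wt S * (x ^ grk S * (1 - x)) * ∑ s : F, (if Lam S l s then fw s else 0) := by
          intro l
          rw [mul_assoc, ← inner_sum hB hS S l x, Finset.mul_sum]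
          refine Finset.sum_congr rfl fun s _ => ?_
          ring
        rw [Finset.sum_congr rfl (fun l _ => h4 l), ← Finset.mul_sum, lam_sum hC hE S]
        have h5 : ∀ l : Fin k → F, (if Spe S l then wt S * x ^ grk S else 0) =
            wt S * x ^ grk S * (if Spe S l then 1 else 0) := by
          intro l; split_ifs <;> simp
        simp_rw [h5]
        rw [← Finset.mul_sum]
        ring
      · simp [hU]
    rw [Finset.sum_congr rfl (fun S _ => h3 S), ← Finset.mul_sum, Finset.sum_comm]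
    rw [Finset.sum_eq_single (0 : Fin k → F)]
    · have h6 : ∀ S : Matrix (Fin k) (Fin k) F, Spe S (0 : Fin k → F) := by
        intro S
        refine ⟨0, ?_, ?_⟩
        · rw [Matrix.mulVec_zero]; funext i; simp
        · simp
      simp only [h6, and_true]
      rw [ih, pow_succ]
      ring
    · intro l _ hl
      exact hH F k x l hl
    · simp

end

end Pool.Agent.T9h78.Sing
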